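import Pool.Agent.H63.UB.Main
import Pool.Agent.H63.CLK.F_AllD

/-!
# The upper bound by the volume of the augmented link

`growth_le`: for arbitrary numbers of half twists the growth rate of the colored Jones polynomial is at
most the maximum of the volume function; `clk_near`: the growth rates and volumes of the links with
many half twists are close to this maximum.
-/

set_option autoImplicit false

namespace Pool.Agent.H63.UB

open Pool.Agent.H63.VC hiding ext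
open Pool.Agent.H63.VC3 Pool.Agent.H63.VC4 Pool.Agent.H63.VC7 Pool.Agent.H63.CLK Complex Filter Topology
open scoped BigOperators

variable {c d : ℕ} {F : Finset ℕ} {cor : Fin c → Fin 4 → ℕ} {x : Vr c → ℝ}

theorem norm_qz (N : ℕ) : ‖qz N‖ = 1 := by
  rw [qz, Complex.norm_exp]
  have : (Real.pi * I / ((N + 1 : ℕ) : ℂ)).re = 0 := by
    rw [show (Real.pi * I / ((N + 1 : ℕ) : ℂ) : ℂ) = ((Real.pi / ((N + 1 : ℕ) : ℝ) : ℝ) : ℂ) * I by
      push_cast; ring, Complex.re_ofReal_mul, Complex.I_re, mul_zero]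
  rw [this, Real.exp_zero]

theorem growth_le {w : List TPiece} (hT : IsTemplate w c F cor) (h : IsMaxN F cor x)
    (hfar : FarOK F cor x) (a : ℕ → ℤ) : ∃ C : ℝ, 0 < C ∧ ∃ D N0 : ℕ, ∀ (e : ℤ) (N : ℕ), N0 ≤ N →
    ‖longJones (fill a 0 w) e N (qz N)‖ ≤
      C * ((N + 1 : ℕ) : ℝ) ^ D * Real.exp (((N + 1 : ℕ) : ℝ) * Uf x) := by
  classical
  obtain ⟨c0, hc0, hF⟩ := hfar
  obtain ⟨C1, hC1, D1, N1, hF⟩ := hF (fun v => a v)
  obtain ⟨C2, hC2, D2, hterm⟩ := term_bound h.int (fun v : Fin c => a v)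
  refine ⟨C1 + C2, by positivity, D1 + (5 * c + D2), N1, fun e N hN => ?_⟩
  have hM1 : (1 : ℝ) ≤ ((N + 1 : ℕ) : ℝ) := by exact_mod_cast Nat.succ_pos N
  have hM0 : (0 : ℝ) < ((N + 1 : ℕ) : ℝ) := by positivity
  rw [jones_stSum hT a e N, norm_mul, norm_zpow, norm_qz, one_zpow, one_mul]
  set f : (Fin c → ℕ) → (Fin c → Fin 4 → ℕ) → ℂ :=
    fun t s => (∏ v : Fin c, eta (a v) N (t v)) * corP N t s with hf
  have hsplit : stSum F cor N f =
      stSum F cor N (fun t s => if ∀ v, N ≤ 2 * t v then f t s else 0) +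
      stSum F cor N (fun t s => if ∀ v, N ≤ 2 * t v then 0 else f t s) := by
    unfold stSum
    rw [← Finset.sum_add_distrib]
    refine Finset.sum_congr rfl fun t _ => ?_
    rw [← Finset.sum_add_distrib]
    refine Finset.sum_congr rfl fun s _ => ?_
    by_cases h1 : IsState F cor N s <;> by_cases h2 : ∀ v, N ≤ 2 * t v <;> simp [h1, h2]
  rw [hsplit]
  refine (norm_add_le _ _).trans ?_
  have hnear : ‖stSum F cor N (fun t s => if ∀ v, N ≤ 2 * t v then f t s else 0)‖ ≤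
      ((N + 1 : ℕ) : ℝ) ^ (5 * c) *
        (C2 * ((N + 1 : ℕ) : ℝ) ^ D2 * Real.exp (((N + 1 : ℕ) : ℝ) * Uf x)) := by
    refine F_FarA_norm N _ _ (by positivity) fun t s ht hs hst => ?_
    by_cases hn : ∀ v, N ≤ 2 * t v
    · simp only [if_pos hn]
      refine (hterm N t s ht hs).trans ?_
      refine mul_le_mul_of_nonneg_left (Real.exp_le_exp.2 ?_) (by positivity)
      refine mul_le_mul_of_nonneg_left ?_ hM0.le
      refine Uf_le h _ (Xp_ang h.int N t s ht hst hs) fun v => ?_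
      simp only [Xp, Sum.elim_inl]
      rw [le_div_iff₀ hM0]
      have h1 := h.int.half v
      have h2 : (N : ℝ) ≤ 2 * (t v : ℝ) := by exact_mod_cast hn v
      push_cast
      linarith
    · simp only [if_neg hn, norm_zero]
      positivity
  refine (add_le_add hnear (hF N hN)).trans ?_
  have e1 : Real.exp (((N + 1 : ℕ) : ℝ) * (Uf x - c0)) ≤ Real.exp (((N + 1 : ℕ) : ℝ) * Uf x) :=
    Real.exp_le_exp.2 (mul_le_mul_of_nonneg_left (by linarith) hM0.le)
  have e2 : ((N + 1 : ℕ) : ℝ) ^ D1 ≤ ((N + 1 : ℕ) : ℝ) ^ (D1 + (5 * c + D2)) :=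
    pow_le_pow_right₀ hM1 (by omega)
  have e3 : ((N + 1 : ℕ) : ℝ) ^ (5 * c + D2) ≤ ((N + 1 : ℕ) : ℝ) ^ (D1 + (5 * c + D2)) :=
    pow_le_pow_right₀ hM1 (by omega)
  have f1 : C1 * ((N + 1 : ℕ) : ℝ) ^ D1 * Real.exp (((N + 1 : ℕ) : ℝ) * (Uf x - c0)) ≤
      C1 * ((N + 1 : ℕ) : ℝ) ^ (D1 + (5 * c + D2)) * Real.exp (((N + 1 : ℕ) : ℝ) * Uf x) := by
    gcongr
  have f2 : ((N + 1 : ℕ) : ℝ) ^ (5 * c) *
        (C2 * ((N + 1 : ℕ) : ℝ) ^ D2 * Real.exp (((N + 1 : ℕ) : ℝ) * Uf x)) ≤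
      C2 * ((N + 1 : ℕ) : ℝ) ^ (D1 + (5 * c + D2)) * Real.exp (((N + 1 : ℕ) : ℝ) * Uf x) := by
    have : ((N + 1 : ℕ) : ℝ) ^ (5 * c) *
        (C2 * ((N + 1 : ℕ) : ℝ) ^ D2 * Real.exp (((N + 1 : ℕ) : ℝ) * Uf x)) =
        C2 * ((N + 1 : ℕ) : ℝ) ^ (5 * c + D2) * Real.exp (((N + 1 : ℕ) : ℝ) * Uf x) := by
      rw [pow_add]; ring
    rw [this]
    gcongr
  calc _ ≤ _ := add_le_add f2 f1
    _ = _ := by ring

/-- The critical value is close to the value at the maximum. -/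
theorem cval_near {b : Fin d → Vr c → ℤ} {x0 : Vr c → ℤ} (h : IsMaxN F cor x)
    (hb : IsBas F cor b x0) (ε : ℝ) (hε : 0 < ε) : ∃ ε2 : ℝ, 0 < ε2 ∧
    ∀ (a : Fin c → ℤ) (K : ℝ) (p : Ix d c → ℂ),
      IsCritE (PhiT F cor b x) (fun j => ((a j : ℤ) : ℝ) / 2) K ε2 p →
      |(cval F cor b x a p).re - Uf x| ≤ ε := by
  obtain ⟨ε0, hP⟩ := phi_ok h hb
  have h0 : (0 : Ix d c → ℂ) ∈ Metric.closedBall (0 : Ix d c → ℂ) ε0 := by
    simp [hP.pos.le]
  have han := hP.an 0 h0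
  have hc1 : ContinuousAt (PhiT F cor b x) 0 := han.continuousAt
  have hc2 : ContinuousAt (fderiv ℂ (PhiT F cor b x)) 0 := han.fderiv.continuousAt
  obtain ⟨δ1, hδ1, h1⟩ := Metric.continuousAt_iff.1 hc1 (ε / 2) (by positivity)
  obtain ⟨δ2, hδ2, h2⟩ := Metric.continuousAt_iff.1 hc2 1 one_pos
  rw [hP.crit] at h2
  have hpi := Real.pi_pos
  refine ⟨min (min (δ1 / 2) (δ2 / 2)) (ε / (2 * ((c : ℝ) + 1) * (2 * Real.pi + 1))), by positivity,
    fun a K p hp => ?_⟩
  have hs1 : ∀ i, ‖p i‖ ≤ δ1 / 2 := fun i =>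
    (hp.small i).trans ((min_le_left _ _).trans (min_le_left _ _))
  have hs2 : ∀ i, ‖p i‖ ≤ δ2 / 2 := fun i =>
    (hp.small i).trans ((min_le_left _ _).trans (min_le_right _ _))
  have hs3 : ∀ i, ‖p i‖ ≤ ε / (2 * ((c : ℝ) + 1) * (2 * Real.pi + 1)) := fun i =>
    (hp.small i).trans (min_le_right _ _)
  have n1 : dist p 0 < δ1 := by
    rw [dist_zero_right]
    exact ((pi_norm_le_iff_of_nonneg (by positivity)).2 hs1).trans_lt (by linarith)
  have n2 : dist p 0 < δ2 := by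
    rw [dist_zero_right]
    exact ((pi_norm_le_iff_of_nonneg (by positivity)).2 hs2).trans_lt (by linarith)
  have k1 := h1 n1
  have k2 := h2 n2
  rw [dist_zero_right] at k2
  rw [phi_zero h.int hb, dist_eq_norm] at k1
  -- the quadratic part
  have hQ : ‖Qr (fun j => ((a j : ℤ) : ℝ) / 2) p‖ ≤ ε / 2 := by
    unfold Qr
    have hj : ∀ j ∈ (Finset.univ : Finset (Fin c)),
        ‖2 * Real.pi * I * (((((a j : ℤ) : ℝ) / 2 : ℝ) : ℂ) * p (Sum.inr j) ^ 2 +
          p (Sum.inr j))‖ ≤ ε / (2 * ((c : ℝ) + 1)) := by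
      intro j _
      have hev := hp.ev j
      set D : ℂ := fderiv ℂ (PhiT F cor b x) p (Pi.single (Sum.inr j) 1) with hD
      have hDn : ‖D‖ ≤ 1 := by
        refine (ContinuousLinearMap.le_opNorm _ _).trans ?_
        have : ‖(Pi.single (Sum.inr j) 1 : Ix d c → ℂ)‖ ≤ 1 := by
          rw [pi_norm_le_iff_of_nonneg zero_le_one]
          intro i
          by_cases hi : i = Sum.inr j
          · subst hi; simp
          · rw [Pi.single_eq_of_ne hi, norm_zero]; exact zero_le_one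
        calc _ ≤ 1 * 1 := mul_le_mul k2.le this (norm_nonneg _) zero_le_one
          _ = 1 := one_mul 1
      have he : 2 * Real.pi * I * (((((a j : ℤ) : ℝ) / 2 : ℝ) : ℂ) * p (Sum.inr j) ^ 2 +
          p (Sum.inr j)) = p (Sum.inr j) * ((2 * Real.pi * I - D) / 2) := by
        linear_combination (p (Sum.inr j) / 2) * hev
      rw [he, norm_mul, norm_div]
      have hn : ‖2 * Real.pi * I - D‖ ≤ 2 * Real.pi + 1 := by
        refine (norm_sub_le _ _).trans (add_le_add (le_of_eq ?_) hDn)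
        rw [norm_mul, Complex.norm_I, mul_one, norm_mul, Complex.norm_real, Real.norm_of_nonneg hpi.le]
        simp
      have hn2 : ‖(2 : ℂ)‖ = 2 := by simp
      rw [hn2]
      calc ‖p (Sum.inr j)‖ * (‖2 * Real.pi * I - D‖ / 2) ≤
          ε / (2 * ((c : ℝ) + 1) * (2 * Real.pi + 1)) * ((2 * Real.pi + 1) / 1) := by
            refine mul_le_mul (hs3 _) ?_ (by positivity) (by positivity)
            have := norm_nonneg (2 * Real.pi * I - D)
            rw [div_one]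
            linarith
        _ = ε / (2 * ((c : ℝ) + 1)) := by
            field_simp
    refine (norm_sum_le_of_le _ hj).trans ?_
    rw [Finset.sum_const, Finset.card_univ, Fintype.card_fin, nsmul_eq_mul]
    rw [mul_div_assoc', div_le_div_iff₀ (by positivity) (by positivity)]
    have : (0 : ℝ) ≤ c := Nat.cast_nonneg c
    nlinarith
  have e1 : (cval F cor b x a p).re - Uf x =
      (PhiT F cor b x p - ((Uf x : ℝ) : ℂ)).re + (Qr (fun j => ((a j : ℤ) : ℝ) / 2) p).re := by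
    unfold cval
    rw [Complex.sub_re, Complex.add_re, Complex.ofReal_re]
    ring
  rw [e1]
  refine (abs_add_le _ _).trans ?_
  have a1 := (Complex.abs_re_le_norm (PhiT F cor b x p - ((Uf x : ℝ) : ℂ))).trans k1.le
  have a2 := (Complex.abs_re_le_norm (Qr (fun j => ((a j : ℤ) : ℝ) / 2) p)).trans hQ
  linarith

/-- The volumes and the growth rates are close to the maximum of the volume function. -/
theorem clk_near {w : List TPiece} (hT : IsTemplate w c F cor)
    (hpr : ∃ v₁ v₂ : Fin c, ∀ v, IsEnd F cor v → v = v₁ ∨ v = v₂) (h : IsMaxN F cor x)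
    (hfar : FarOK F cor x) (ε : ℝ) (hε : 0 < ε) :
    ∃ R : ℝ, ∀ a : ℕ → ℤ, (∀ v < c, R ≤ |(a v : ℝ)|) → ∃ V : ℝ, IsVolume w a V ∧
      |V - 2 * Real.pi * Uf x| ≤ ε ∧ ∀ e : ℤ,
      Tendsto (fun N : ℕ => 2 * (Real.pi : ℂ) * log (longJones (fill a 0 w) e N (qz N)) / (N + 1))
        atTop (𝓝 (V : ℂ)) := by
  have hpi := Real.pi_pos
  obtain ⟨T, hTF, hTc, hTw, hTG, hTe, hTA⟩ := exists_tdata hT h.int hpr
  obtain ⟨d, b, x0, hb, K, hK, hR⟩ := jones_asym hT h hfar
  obtain ⟨ε1, hε1, h1⟩ := critT_of h.int hb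
  obtain ⟨ε2, hε2, h2⟩ := psi_eq (d := d) (b := b) h.int
  obtain ⟨ε3, hε3, h3⟩ := isVolume_of_crit hTw hTG hTA
  obtain ⟨ε4, hε4, h4⟩ := F_Main_par b x ε3 hε3
  obtain ⟨ε5, hε5, h5⟩ := cval_near h hb (ε / (2 * Real.pi)) (by positivity)
  have hcard : F.card = c := template_card hT
  have hpow : ((c : ℝ) + d - (Nd F cor).card) / 2 = 3 / 2 := by
    have hpr' : ∃ v₁ v₂ : Fin c, ∀ v, IsEnd T.F T.cor v → v = v₁ ∨ v = v₂ := by
      rw [hTF, hTc]; exact hpr
    have h' : IsInt T.F T.cor x := by rw [hTF, hTc]; exact h.int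
    have hb' : IsBas T.F T.cor b x0 := by rw [hTF, hTc]; exact hb
    have := power_eq hTw hTG (by rw [hTF]; exact hcard) hpr' h' hb'
    rw [hTF, hTc] at this
    exact this
  set m : ℝ := min (min (min ε1 ε2) (min (ε3 / 2) ε4)) ε5 with hm
  have hs1 : m ≤ ε1 := (min_le_left _ _).trans ((min_le_left _ _).trans (min_le_left _ _))
  have hs2 : m ≤ ε2 := (min_le_left _ _).trans ((min_le_left _ _).trans (min_le_right _ _))
  have hs3 : m ≤ ε3 / 2 := (min_le_left _ _).trans ((min_le_right _ _).trans (min_le_left _ _))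
  have hs4 : m ≤ ε4 := (min_le_left _ _).trans ((min_le_right _ _).trans (min_le_right _ _))
  have hs5 : m ≤ ε5 := min_le_right _ _
  obtain ⟨R, hR0, hRa⟩ := hR m (by positivity)
  refine ⟨R, fun a ha => ?_⟩
  obtain ⟨p, hp, hlim⟩ := hRa a ha
  obtain ⟨A, B, hc⟩ := h1 T hTF hTc hTe (fun v => a v) K _ p hs1 hp
  have hψ := h2 T hTF hTc hTe (fun v => a v) p (fun i => (hp.small i).trans hs2)
  have hpar := h4 p (fun i => (hp.small i).trans hs4)
  have hp5 : IsCritE (PhiT F cor b x) (fun j : Fin c => ((a j : ℤ) : ℝ) / 2) K ε5 p :=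
    ⟨fun i => (hp.small i).trans hs5, hp.ew, hp.ev, hp.impos, hp.imle⟩
  have hnear := h5 (fun j => a j) K p hp5
  set z : ℂ := cval F cor b x (fun v : Fin c => a v) p with hz
  refine ⟨2 * Real.pi * z.re, ?_, ?_, fun e => ?_⟩
  · rw [← hψ]
    refine h3 a _ _ _ A B hc (fun v => ⟨hpar _, ?_⟩) (fun v k => hpar _)
    have := (hp.small (Sum.inr v)).trans hs3
    linarith
  · rw [← mul_sub, abs_mul, abs_of_pos (by positivity : (0 : ℝ) < 2 * Real.pi)]
    rw [le_div_iff₀ (by positivity)] at hnear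
    linarith
  · obtain ⟨κ, hκ, hl⟩ := hlim e
    rw [hpow] at hl
    obtain ⟨-, h2, -⟩ := F_Final_log _ _ κ hκ hl
    have hre : (z - ∑ v : Fin c, Real.pi * I * a v / 4 + Real.pi * I * e).re = z.re := by
      have h1 : ∀ r : ℝ, ((r : ℂ) * I).re = 0 := fun r => by simp
      have h2 : (∑ v : Fin c, (Real.pi : ℂ) * I * a v / 4) =
          ((∑ v : Fin c, Real.pi * (a v : ℝ) / 4 : ℝ) : ℂ) * I := by
        push_cast
        rw [Finset.sum_mul]
        refine Finset.sum_congr rfl fun v _ => ?_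
        ring
      have h3 : (Real.pi : ℂ) * I * e = ((Real.pi * (e : ℝ) : ℝ) : ℂ) * I := by
        push_cast; ring
      rw [h2, h3, Complex.add_re, Complex.sub_re, h1, h1]
      ring
    rw [hre] at h2
    exact h2

end Pool.Agent.H63.UB
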