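import Pool.Agent.H63.UB.Aug
import Pool.Agent.H93.TR.Main

/-!
# The upper bounds: assembly
-/

set_option autoImplicit false

namespace Pool.Agent.H63.UB

open Pool.Agent.H63.VC hiding ext
open Pool.Agent.H63.VC3 Pool.Agent.H63.VC4 Pool.Agent.H63.VC7 Pool.Agent.H63.CLK Filter Topology Real
open scoped BigOperators

private theorem Fin_dec : StrictAntiOn lob (Set.Icc (π / 6) (π / 2)) := by
  apply strictAntiOn_of_deriv_neg (convex_Icc _ _) volA_lob_continuous.continuousOn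
  intro x hx
  rw [interior_Icc] at hx
  have hp := Real.pi_pos
  have hs : 0 < Real.sin x := Real.sin_pos_of_pos_of_lt_pi (by linarith [hx.1]) (by linarith [hx.2])
  rw [(volA_lob_hasDerivAt x hs.ne').deriv]
  have h1 : 1 / 2 < Real.sin x := by
    rw [← Real.sin_pi_div_six]
    exact Real.sin_lt_sin_of_lt_of_le_pi_div_two (by linarith) (by linarith [hx.2]) hx.1
  rw [abs_of_pos (by positivity)]
  have h2 : 0 < Real.log (2 * Real.sin x) := Real.log_pos (by linarith)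
  linarith

theorem lob_pos' {x : ℝ} (h0 : π / 6 ≤ x) (h1 : x < π / 2) : 0 < lob x := by
  have hp := Real.pi_pos
  have := Fin_dec ⟨h0, h1.le⟩ ⟨by linarith, le_rfl⟩ h1
  rwa [lob_half_pi] at this

/-- From the upper bound of a sequence to the upper bound of the limit. -/
theorem lim_le (J : ℕ → ℂ) (C P B V : ℝ) (D c : ℕ) (hC : 0 < C) (hP : 0 < P) (hB : 0 ≤ B)
    (h : ∀ N : ℕ, 1 ≤ N → ‖J N‖ ≤ (C * ((N + 1 : ℕ) : ℝ) ^ D) ^ c * P *
      Real.exp (((N + 1 : ℕ) : ℝ) * (B / (2 * π))))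
    (hV : Tendsto (fun N : ℕ => 2 * (π : ℂ) * Complex.log (J N) / (N + 1)) atTop (𝓝 (V : ℂ))) :
    V ≤ B := by
  have hpi := Real.pi_pos
  have h1 : Tendsto (fun N : ℕ => 2 * π * Real.log ‖J N‖ / ((N + 1 : ℕ) : ℝ)) atTop (𝓝 V) := by
    have h2 := (Complex.continuous_re.tendsto _).comp hV
    rw [Complex.ofReal_re] at h2
    refine h2.congr fun N => ?_
    simp only [Function.comp_apply]
    have e1 : (2 * (π : ℂ) * Complex.log (J N) / (N + 1)) =
        ((2 * π / ((N + 1 : ℕ) : ℝ) : ℝ) : ℂ) * Complex.log (J N) := by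
      push_cast; ring
    rw [e1, Complex.re_ofReal_mul, Complex.log_re]
    ring
  set K : ℝ := |(c : ℝ) * Real.log C + Real.log P| with hK
  have h3 : Tendsto (fun N : ℕ => 2 * π * (K / ((N + 1 : ℕ) : ℝ) +
      ((D * c : ℕ) : ℝ) * (Real.log ((N + 1 : ℕ) : ℝ) / ((N + 1 : ℕ) : ℝ))) + B) atTop (𝓝 B) := by
    have hM : Tendsto (fun N : ℕ => ((N + 1 : ℕ) : ℝ)) atTop atTop :=
      tendsto_natCast_atTop_atTop.comp (tendsto_add_atTop_nat 1)
    have t1 : Tendsto (fun N : ℕ => K / ((N + 1 : ℕ) : ℝ)) atTop (𝓝 0) := hM.const_div_atTop K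
    have t2 : Tendsto (fun N : ℕ => Real.log ((N + 1 : ℕ) : ℝ) / ((N + 1 : ℕ) : ℝ)) atTop (𝓝 0) :=
      (Real.isLittleO_log_id_atTop.tendsto_div_nhds_zero).comp hM
    have t3 := ((t1.add (t2.const_mul ((D * c : ℕ) : ℝ))).const_mul (2 * π)).add_const B
    simpa using t3
  refine le_of_tendsto_of_tendsto h1 h3 ?_
  filter_upwards [eventually_ge_atTop 1] with N hN
  have hM : (0 : ℝ) < ((N + 1 : ℕ) : ℝ) := by positivity
  have hM1 : (1 : ℝ) ≤ ((N + 1 : ℕ) : ℝ) := by exact_mod_cast Nat.succ_pos N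
  have hl : 0 ≤ Real.log ((N + 1 : ℕ) : ℝ) := Real.log_nonneg hM1
  have hkey : Real.log ‖J N‖ ≤ K + ((D * c : ℕ) : ℝ) * Real.log ((N + 1 : ℕ) : ℝ) +
      ((N + 1 : ℕ) : ℝ) * (B / (2 * π)) := by
    rcases (norm_nonneg (J N)).eq_or_lt with h0 | h0
    · rw [← h0, Real.log_zero]
      positivity
    · refine (Real.log_le_log h0 (h N hN)).trans ?_
      rw [Real.log_mul (by positivity) (by positivity), Real.log_mul (by positivity) hP.ne',
        Real.log_exp, Real.log_pow, Real.log_mul hC.ne' (by positivity), Real.log_pow]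
      have := le_abs_self ((c : ℝ) * Real.log C + Real.log P)
      rw [← hK] at this
      push_cast at this ⊢
      linarith
  rw [div_le_iff₀ hM]
  calc 2 * π * Real.log ‖J N‖ ≤ 2 * π * (K + ((D * c : ℕ) : ℝ) * Real.log ((N + 1 : ℕ) : ℝ) +
      ((N + 1 : ℕ) : ℝ) * (B / (2 * π))) := by gcongr
    _ = _ := by field_simp

/-- The upper bound by the volume of the augmented link, for prime twist-reduced templates. -/
theorem aug {w : List TPiece} {c : ℕ} {F : Finset ℕ} {cor : Fin c → Fin 4 → ℕ}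
    (hT : IsTemplate w c F cor) (hc : 0 < c) (hP : Pool.Agent.H93.TR.IsPR cor)
    (hR : Pool.Agent.H93.TR.IsTwRed cor) : ∃ V₀ : ℝ,
    V₀ ≤ 30 * lob (π / 3) * ((c : ℝ) - 2) + 16 * lob (π / 4) ∧
    (∀ a : ℕ → ℤ, ∃ C : ℝ, ∃ D : ℕ, ∀ e : ℤ, ∀ᶠ N : ℕ in atTop,
      ‖longJones (fill a 0 w) e N (qz N)‖ ≤
        C * ((N + 1 : ℕ) : ℝ) ^ D * Real.exp (((N + 1 : ℕ) : ℝ) * V₀ / (2 * π))) ∧
    ∀ ε : ℝ, 0 < ε → ∃ R : ℝ, ∀ a : ℕ → ℤ, (∀ v < c, R ≤ |(a v : ℝ)|) → ∃ V : ℝ,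
      IsVolume w a V ∧ |V - V₀| ≤ ε ∧ ∀ e : ℤ,
      Tendsto (fun N : ℕ => 2 * (π : ℂ) * Complex.log (longJones (fill a 0 w) e N (qz N)) / (N + 1))
        atTop (𝓝 (V : ℂ)) := by
  have hpi := Real.pi_pos
  obtain ⟨hPT, z, hz⟩ := Pool.Agent.H93.TR.reduced_int hT hc hP hR
  obtain ⟨x, hx⟩ := exists_maxN hz
  have hfar := far_ok hT (side_ne hT hPT) hx (fun v => hPT.opp v 0)
  have hnear := clk_near hT hPT.ends hx hfar
  refine ⟨2 * π * Uf x, ?_, fun a => ?_, hnear⟩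
  · obtain ⟨C, hC, D, hb⟩ := twist_le
    obtain ⟨v₀, v₁, k₀, k₁, hne, -⟩ := exists_ends hT hc hP.red
    have hc2 : (2 : ℝ) ≤ c := by
      have : 1 < c := by
        by_contra hcon
        have e0 := v₀.2
        have e1 := v₁.2
        exact hne (Fin.ext (by omega))
      exact_mod_cast this
    have hB : 0 ≤ 30 * lob (π / 3) * ((c : ℝ) - 2) + 16 * lob (π / 4) := by
      have l1 := lob_pos' (x := π / 3) (by linarith) (by linarith)
      have l2 := lob_pos' (x := π / 4) (by linarith) (by linarith)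
      have : 0 ≤ (c : ℝ) - 2 := by linarith
      positivity
    refine le_of_forall_pos_le_add fun ε hε => ?_
    obtain ⟨R, hR'⟩ := hnear ε hε
    obtain ⟨V, -, hV1, hV2⟩ := hR' (fun _ => ⌈R⌉) (fun v _ => (Int.le_ceil R).trans (le_abs_self _))
    have hVB : V ≤ 30 * lob (π / 3) * ((c : ℝ) - 2) + 16 * lob (π / 4) := by
      refine lim_le _ C (∏ v : Fin c, (1 + |((⌈R⌉ : ℤ) : ℝ)|)) _ V D c hC
        (Finset.prod_pos fun v _ => by positivity) hB (fun N hN => ?_) (hV2 0)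
      exact hb w c F cor hT hc hP.red (fun _ => ⌈R⌉) 0 N hN
    have := (abs_le.1 hV1).1
    linarith
  · obtain ⟨C, -, D, N0, h⟩ := growth_le hT hx hfar a
    refine ⟨C, D, fun e => ?_⟩
    filter_upwards [eventually_ge_atTop N0] with N hN
    refine (h e N hN).trans (le_of_eq ?_)
    congr 2
    field_simp

end Pool.Agent.H63.UB
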