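import Pool.Agent.H63.CLK.C_Fr
import Pool.Agent.H63.VC.VolA

/-!
# Local bounds for the growth rates at one twist region

`pair_le`: `lob (π σ) + lob (π (s - σ))` is largest at `σ = s / 2` (derivative
`π log (sin (π (s - σ)) / sin (π σ))`).
`vtx_le`: the function `8 lob (π γ) - 2 lob (2 π γ) + 8 lob (π γ / 2) + 8 lob (π (1 - γ) / 2)` on
`[0, 1/2]` has the derivative `4 π log (cos (π γ) cos (π γ / 2) / (sin (π γ) sin (π γ / 2)))`, which is
positive for `γ < 1/3` and negative for `γ > 1/3`; the value at `1/3` is `30 lob (π / 3)`, ten times the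
volume of the regular ideal tetrahedron.
-/

set_option autoImplicit false

namespace Pool.Agent.H63.UB

open Pool.Agent.H63.VC hiding ext
open Pool.Agent.H63.VC3 Pool.Agent.H63.CLK Real

theorem lobD {x : ℝ} (h0 : 0 < x) (h1 : x < π) : HasDerivAt lob (-log (2 * sin x)) x := by
  have hs : 0 < sin x := sin_pos_of_pos_of_lt_pi h0 h1
  have h := volA_lob_hasDerivAt x hs.ne'
  rwa [abs_of_pos (by positivity)] at h

theorem lob_pi_sub' (x : ℝ) : lob (π - x) = -lob x := by
  rw [show π - x = -x + π by ring, volA_lob_add_pi, volA_lob_neg]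

theorem lob_half_pi : lob (π / 2) = 0 := by
  have h := lob_pi_sub' (π / 2)
  rw [show π - π / 2 = π / 2 by ring] at h
  linarith

/-- The duplication formula. -/
theorem lob_dup {s : ℝ} (hs0 : 0 ≤ s) (hs1 : s ≤ π) :
    lob s + 2 * lob ((π - s) / 2) - 2 * lob (s / 2) = 0 := by
  rcases hs0.eq_or_lt with rfl | hs
  · have h1 : (π - 0) / 2 = π / 2 := by ring
    rw [h1, lob_half_pi]
    simp [volA_lob_zero]
  set g : ℝ → ℝ := fun s => lob s + 2 * lob ((π - s) / 2) - 2 * lob (s / 2) with hg
  have hc : Continuous g := by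
    have := volA_lob_continuous
    fun_prop
  have hd : ∀ x ∈ Set.Ioo (0 : ℝ) s, HasDerivAt g 0 x := by
    intro x hx
    have hx0 : 0 < x := hx.1
    have hx1 : x < π := lt_of_lt_of_le hx.2 hs1
    have d1 := lobD hx0 hx1
    have d2 : HasDerivAt (fun y : ℝ => lob ((π - y) / 2))
        (-log (2 * sin ((π - x) / 2)) * (-1 / 2)) x := by
      have ha : HasDerivAt lob (-log (2 * sin ((π - x) / 2))) ((π - x) / 2) :=
        lobD (by linarith) (by linarith)
      have hb : HasDerivAt (fun y : ℝ => (π - y) / 2) (-1 / 2) x :=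
        ((hasDerivAt_id x).const_sub π).div_const 2
      exact HasDerivAt.comp (h₂ := lob) x ha hb
    have d3 : HasDerivAt (fun y : ℝ => lob (y / 2)) (-log (2 * sin (x / 2)) * (1 / 2)) x := by
      have ha : HasDerivAt lob (-log (2 * sin (x / 2))) (x / 2) :=
        lobD (by linarith) (by linarith)
      have hb : HasDerivAt (fun y : ℝ => y / 2) (1 / 2) x := (hasDerivAt_id x).div_const 2
      exact HasDerivAt.comp (h₂ := lob) x ha hb
    have d := (d1.add (d2.const_mul 2)).sub (d3.const_mul 2)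
    have hsin : 0 < sin (x / 2) := sin_pos_of_pos_of_lt_pi (by linarith) (by linarith)
    have hcos : 0 < cos (x / 2) := cos_pos_of_mem_Ioo ⟨by linarith, by linarith⟩
    have e1 : sin ((π - x) / 2) = cos (x / 2) := by
      rw [show (π - x) / 2 = π / 2 - x / 2 by ring, sin_pi_div_two_sub]
    have e2 : sin x = 2 * sin (x / 2) * cos (x / 2) := by
      rw [← sin_two_mul]
      congr 1
      ring
    have e3 : log (2 * sin x) = log (2 * cos (x / 2)) + log (2 * sin (x / 2)) := by
      rw [← log_mul (by positivity) (by positivity), e2]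
      congr 1
      ring
    refine d.congr_deriv ?_
    rw [e1, e3]
    ring
  obtain ⟨c, hc1, hc2⟩ := exists_hasDerivAt_eq_slope g (fun _ => 0) hs hc.continuousOn hd
  have h3 : g s - g 0 = 0 := by
    have h4 : (0 : ℝ) < s - 0 := by linarith
    have h5 := hc2
    rw [eq_comm, div_eq_zero_iff] at h5
    rcases h5 with h5 | h5
    · exact h5
    · exact absurd h5 h4.ne'
  have h0 : g 0 = 0 := by
    simp only [hg]
    have h1 : (π - 0) / 2 = π / 2 := by ring
    rw [h1, lob_half_pi]
    simp [volA_lob_zero]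
  have : g s = 0 := by linarith
  exact this

theorem lob_pi_div_six : lob (π / 6) = 3 / 2 * lob (π / 3) := by
  have hpi := pi_pos
  have h := lob_dup (s := π / 3) (by positivity) (by linarith)
  rw [show (π - π / 3) / 2 = π / 3 by ring, show π / 3 / 2 = π / 6 by ring] at h
  linarith

/-- The maximum over one corner. -/
theorem pair_le {s σ : ℝ} (h0 : 0 ≤ σ) (h1 : σ ≤ s) (h2 : s ≤ 1) :
    lob (π * σ) + lob (π * (s - σ)) ≤ 2 * lob (π * (s / 2)) := by
  have hpi := pi_pos
  -- the case `σ ≤ s / 2`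
  have key : ∀ σ : ℝ, 0 ≤ σ → σ ≤ s / 2 →
      lob (π * σ) + lob (π * (s - σ)) ≤ 2 * lob (π * (s / 2)) := by
    intro σ h0 h1
    rcases h1.eq_or_lt with rfl | h3
    · rw [show s - s / 2 = s / 2 by ring]
      linarith
    set g : ℝ → ℝ := fun y => lob (π * y) + lob (π * (s - y)) with hg
    have hc : Continuous g := by
      have := volA_lob_continuous
      fun_prop
    have hd : ∀ y ∈ Set.Ioo σ (s / 2), HasDerivAt g
        (π * (log (2 * sin (π * (s - y))) - log (2 * sin (π * y)))) y := by
      intro y hy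
      have hy0 : 0 < y := lt_of_le_of_lt h0 hy.1
      have hy1 : y < s / 2 := hy.2
      have d1 : HasDerivAt (fun y : ℝ => lob (π * y)) (-log (2 * sin (π * y)) * (π * 1)) y := by
        have ha : HasDerivAt lob (-log (2 * sin (π * y))) (π * y) :=
          lobD (by positivity) (by nlinarith)
        exact HasDerivAt.comp (h₂ := lob) y ha ((hasDerivAt_id y).const_mul π)
      have d2 : HasDerivAt (fun y : ℝ => lob (π * (s - y)))
          (-log (2 * sin (π * (s - y))) * (π * (-1))) y := by
        have ha : HasDerivAt lob (-log (2 * sin (π * (s - y)))) (π * (s - y)) :=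
          lobD (by
            have : 0 < s - y := by linarith
            positivity) (by nlinarith)
        exact HasDerivAt.comp (h₂ := lob) y ha (((hasDerivAt_id y).const_sub s).const_mul π)
      refine (d1.add d2).congr_deriv ?_
      ring
    obtain ⟨y, hy, hy2⟩ := exists_hasDerivAt_eq_slope g _ h3 hc.continuousOn hd
    have hy0 : 0 < y := lt_of_le_of_lt h0 hy.1
    have hy1 : y < s / 2 := hy.2
    have hs1 : 0 < sin (π * y) := sin_pos_of_pos_of_lt_pi (by positivity) (by nlinarith)
    have hs2 : sin (π * y) ≤ sin (π * (s - y)) := by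
      rcases le_total (π * (s - y)) (π / 2) with h4 | h4
      · exact sin_le_sin_of_le_of_le_pi_div_two (by nlinarith) h4 (by nlinarith)
      · rw [← sin_pi_sub (π * (s - y))]
        exact sin_le_sin_of_le_of_le_pi_div_two (by nlinarith) (by linarith) (by nlinarith)
    have h5 : 0 ≤ π * (log (2 * sin (π * (s - y))) - log (2 * sin (π * y))) := by
      have : log (2 * sin (π * y)) ≤ log (2 * sin (π * (s - y))) :=
        log_le_log (by positivity) (by linarith)
      have h6 : 0 ≤ log (2 * sin (π * (s - y))) - log (2 * sin (π * y)) := by linarith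
      positivity
    rw [hy2] at h5
    have h6 : 0 < s / 2 - σ := by linarith
    have h7 : 0 ≤ g (s / 2) - g σ := by
      have := mul_nonneg h5 h6.le
      rwa [div_mul_cancel₀ _ h6.ne'] at this
    have h8 : g (s / 2) = 2 * lob (π * (s / 2)) := by
      simp only [hg]
      rw [show s - s / 2 = s / 2 by ring]
      ring
    have h9 : g σ = lob (π * σ) + lob (π * (s - σ)) := rfl
    linarith
  rcases le_total σ (s / 2) with h3 | h3
  · exact key σ h0 h3
  · have := key (s - σ) (by linarith) (by linarith)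
    rw [show s - (s - σ) = σ by ring] at this
    linarith

/-- The growth rate of a twist region with four corners, `γ = 1 - τ`. -/
noncomputable def Eg (γ : ℝ) : ℝ :=
  8 * lob (π * γ) - 2 * lob (2 * π * γ) + 8 * lob (π * (γ / 2)) + 8 * lob (π * ((1 - γ) / 2))

theorem Eg_continuous : Continuous Eg := by
  have := volA_lob_continuous
  unfold Eg
  fun_prop

theorem Eg_third : Eg (1 / 3) = 30 * lob (π / 3) := by
  unfold Eg
  rw [show π * (1 / 3) = π / 3 by ring, show 2 * π * (1 / 3) = π - π / 3 by ring, lob_pi_sub',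
    show π * (1 / 3 / 2) = π / 6 by ring, show π * ((1 - 1 / 3) / 2) = π / 3 by ring,
    lob_pi_div_six]
  ring

theorem Eg_deriv {γ : ℝ} (h0 : 0 < γ) (h1 : γ < 1 / 2) : HasDerivAt Eg
    (4 * π * (log (cos (π * γ) * cos (π * (γ / 2))) - log (sin (π * γ) * sin (π * (γ / 2))))) γ := by
  have hpi := pi_pos
  have d1 : HasDerivAt (fun y : ℝ => lob (π * y)) (-log (2 * sin (π * γ)) * (π * 1)) γ := by
    have ha : HasDerivAt lob (-log (2 * sin (π * γ))) (π * γ) :=
      lobD (by positivity) (by nlinarith)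
    exact HasDerivAt.comp (h₂ := lob) γ ha ((hasDerivAt_id γ).const_mul π)
  have d2 : HasDerivAt (fun y : ℝ => lob (2 * π * y)) (-log (2 * sin (2 * π * γ)) * (2 * π * 1)) γ := by
    have ha : HasDerivAt lob (-log (2 * sin (2 * π * γ))) (2 * π * γ) :=
      lobD (by positivity) (by nlinarith)
    exact HasDerivAt.comp (h₂ := lob) γ ha ((hasDerivAt_id γ).const_mul (2 * π))
  have d3 : HasDerivAt (fun y : ℝ => lob (π * (y / 2)))
      (-log (2 * sin (π * (γ / 2))) * (π * (1 / 2))) γ := by
    have ha : HasDerivAt lob (-log (2 * sin (π * (γ / 2)))) (π * (γ / 2)) :=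
      lobD (by positivity) (by nlinarith)
    exact HasDerivAt.comp (h₂ := lob) γ ha (((hasDerivAt_id γ).div_const 2).const_mul π)
  have d4 : HasDerivAt (fun y : ℝ => lob (π * ((1 - y) / 2)))
      (-log (2 * sin (π * ((1 - γ) / 2))) * (π * (-1 / 2))) γ := by
    have ha : HasDerivAt lob (-log (2 * sin (π * ((1 - γ) / 2)))) (π * ((1 - γ) / 2)) :=
      lobD (by
        have : 0 < 1 - γ := by linarith
        positivity) (by nlinarith)
    exact HasDerivAt.comp (h₂ := lob) γ ha ((((hasDerivAt_id γ).const_sub 1).div_const 2).const_mul π)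
  have s1 : 0 < sin (π * γ) := sin_pos_of_pos_of_lt_pi (by positivity) (by nlinarith)
  have s2 : 0 < sin (π * (γ / 2)) := sin_pos_of_pos_of_lt_pi (by positivity) (by nlinarith)
  have c1 : 0 < cos (π * γ) := cos_pos_of_mem_Ioo ⟨by nlinarith, by nlinarith⟩
  have c2 : 0 < cos (π * (γ / 2)) := cos_pos_of_mem_Ioo ⟨by nlinarith, by nlinarith⟩
  have e1 : sin (2 * π * γ) = 2 * sin (π * γ) * cos (π * γ) := by
    rw [← sin_two_mul]
    congr 1
    ring
  have e2 : sin (π * ((1 - γ) / 2)) = cos (π * (γ / 2)) := by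
    rw [show π * ((1 - γ) / 2) = π / 2 - π * (γ / 2) by ring, sin_pi_div_two_sub]
  refine ((((d1.const_mul 8).sub (d2.const_mul 2)).add (d3.const_mul 8)).add
    (d4.const_mul 8)).congr_deriv ?_
  rw [e1, e2, log_mul c1.ne' c2.ne', log_mul s1.ne' s2.ne', log_mul two_ne_zero s1.ne',
    log_mul two_ne_zero (by positivity), log_mul (by positivity) c1.ne',
    log_mul two_ne_zero s1.ne', log_mul two_ne_zero s2.ne', log_mul two_ne_zero c2.ne']
  ring

/-- The maximum at one twist region. -/
theorem Eg_le {γ : ℝ} (h0 : 0 ≤ γ) (h1 : γ ≤ 1 / 2) : Eg γ ≤ 30 * lob (π / 3) := by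
  have hpi := pi_pos
  rw [← Eg_third]
  have hcos : ∀ y : ℝ, cos (π * y) * cos (π * (y / 2)) - sin (π * y) * sin (π * (y / 2)) =
      cos (3 * π * y / 2) := by
    intro y
    rw [← cos_add]
    congr 1
    ring
  rcases lt_trichotomy γ (1 / 3) with h | h | h
  · obtain ⟨y, hy, hy2⟩ := exists_hasDerivAt_eq_slope Eg _ h Eg_continuous.continuousOn
      (fun y hy => Eg_deriv (lt_of_le_of_lt h0 hy.1) (by linarith [hy.2]))
    have hy0 : 0 < y := lt_of_le_of_lt h0 hy.1
    have hy1 : y < 1 / 3 := hy.2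
    have s1 : 0 < sin (π * y) := sin_pos_of_pos_of_lt_pi (by positivity) (by nlinarith)
    have s2 : 0 < sin (π * (y / 2)) := sin_pos_of_pos_of_lt_pi (by positivity) (by nlinarith)
    have h2 : 0 ≤ cos (3 * π * y / 2) :=
      cos_nonneg_of_neg_pi_div_two_le_of_le (by nlinarith) (by nlinarith)
    have h3 := hcos y
    have h4 : log (sin (π * y) * sin (π * (y / 2))) ≤ log (cos (π * y) * cos (π * (y / 2))) :=
      log_le_log (by positivity) (by linarith)
    have h5 : 0 ≤ 4 * π * (log (cos (π * y) * cos (π * (y / 2))) -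
        log (sin (π * y) * sin (π * (y / 2)))) := by
      have : 0 ≤ log (cos (π * y) * cos (π * (y / 2))) -
        log (sin (π * y) * sin (π * (y / 2))) := by linarith
      positivity
    rw [hy2] at h5
    have h6 : 0 < 1 / 3 - γ := by linarith
    have := mul_nonneg h5 h6.le
    rw [div_mul_cancel₀ _ h6.ne'] at this
    linarith
  · rw [h]
  · obtain ⟨y, hy, hy2⟩ := exists_hasDerivAt_eq_slope Eg _ h Eg_continuous.continuousOn
      (fun y hy => Eg_deriv (by linarith [hy.1]) (by linarith [hy.2]))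
    have hy0 : 1 / 3 < y := hy.1
    have hy1 : y < 1 / 2 := by linarith [hy.2]
    have c1 : 0 < cos (π * y) := cos_pos_of_mem_Ioo ⟨by nlinarith, by nlinarith⟩
    have c2 : 0 < cos (π * (y / 2)) := cos_pos_of_mem_Ioo ⟨by nlinarith, by nlinarith⟩
    have h2 : cos (3 * π * y / 2) ≤ 0 :=
      cos_nonpos_of_pi_div_two_le_of_le (by nlinarith) (by nlinarith)
    have h3 := hcos y
    have h4 : log (cos (π * y) * cos (π * (y / 2))) ≤ log (sin (π * y) * sin (π * (y / 2))) :=
      log_le_log (by positivity) (by linarith)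
    have h5 : 4 * π * (log (cos (π * y) * cos (π * (y / 2))) -
        log (sin (π * y) * sin (π * (y / 2)))) ≤ 0 := by
      have : log (cos (π * y) * cos (π * (y / 2))) -
        log (sin (π * y) * sin (π * (y / 2))) ≤ 0 := by linarith
      exact mul_nonpos_of_nonneg_of_nonpos (by positivity) this
    rw [hy2] at h5
    have h6 : 0 < γ - 1 / 3 := by linarith
    have := mul_nonpos_of_nonpos_of_nonneg h5 h6.le
    rw [div_mul_cancel₀ _ h6.ne'] at this
    linarith

theorem eight_le_ten : 16 * lob (π / 4) ≤ 30 * lob (π / 3) := by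
  have h := Eg_le (γ := 1 / 2) (by norm_num) le_rfl
  have e : Eg (1 / 2) = 16 * lob (π / 4) := by
    unfold Eg
    rw [show π * (1 / 2) = π / 2 by ring, lob_half_pi, show 2 * π * (1 / 2) = π by ring,
      volA_lob_pi, show π * (1 / 2 / 2) = π / 4 by ring,
      show π * ((1 - 1 / 2) / 2) = π / 4 by ring]
    ring
  linarith

theorem two_pi_Fr (u : ℝ) : 2 * π * Fr u = -2 * lob (π * u) := by
  have hpi := pi_pos
  unfold Fr
  field_simp

/-- The growth rate at an end. -/
theorem sl_le {τ : ℝ} (h0 : 0 ≤ τ) (h1 : τ ≤ 1) : 2 * π * sl τ ≤ 8 * lob (π / 4) := by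
  have hpi := pi_pos
  have hq := pair_le (s := 1 / 2) (σ := 0) le_rfl (by norm_num) (by norm_num)
  rw [mul_zero, volA_lob_zero, sub_zero, show π * (1 / 2) = π / 2 by ring, lob_half_pi,
    show π * (1 / 2 / 2) = π / 4 by ring] at hq
  unfold sl
  split_ifs with h
  · rw [mul_zero]
    linarith
  · push Not at h
    have e1 : 2 * π * (2 * Fr τ - 2 * Fr (τ - 1 / 2)) =
        -4 * lob (π * τ) + 4 * lob (π * (τ - 1 / 2)) := by
      have a1 := two_pi_Fr τ
      have a2 := two_pi_Fr (τ - 1 / 2)
      linear_combination 2 * a1 - 2 * a2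
    rw [e1]
    have e2 : lob (π * τ) = -lob (π * (1 - τ)) := by
      rw [← lob_pi_sub']
      congr 1
      ring
    have h3 := pair_le (s := 1 / 2) (σ := 1 - τ) (by linarith) (by linarith) (by norm_num)
    rw [show 1 / 2 - (1 - τ) = τ - 1 / 2 by ring, show π * (1 / 2 / 2) = π / 4 by ring] at h3
    rw [e2]
    linarith

/-- The growth rate at a twist region with four corners. -/
theorem vtx_le {τ : ℝ} (h0 : 0 ≤ τ) (h1 : τ ≤ 1) :
    2 * π * (sl τ - 4 * Fr ((1 - τ) / 2) - 4 * Fr (τ / 2)) ≤ 30 * lob (π / 3) := by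
  have hpi := pi_pos
  have e0 : 2 * π * (sl τ - 4 * Fr ((1 - τ) / 2) - 4 * Fr (τ / 2)) =
      2 * π * sl τ + 8 * lob (π * ((1 - τ) / 2)) + 8 * lob (π * (τ / 2)) := by
    have a1 := two_pi_Fr ((1 - τ) / 2)
    have a2 := two_pi_Fr (τ / 2)
    linear_combination -4 * a1 - 4 * a2
  rw [e0]
  unfold sl
  split_ifs with h
  · have h3 := pair_le (s := 1 / 2) (σ := τ / 2) (by linarith) (by linarith) (by norm_num)
    rw [show 1 / 2 - τ / 2 = (1 - τ) / 2 by ring, show π * (1 / 2 / 2) = π / 4 by ring] at h3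
    have := eight_le_ten
    linarith
  · push Not at h
    have e1 : 2 * π * (2 * Fr τ - 2 * Fr (τ - 1 / 2)) =
        -4 * lob (π * τ) + 4 * lob (π * (τ - 1 / 2)) := by
      have a1 := two_pi_Fr τ
      have a2 := two_pi_Fr (τ - 1 / 2)
      linear_combination 2 * a1 - 2 * a2
    have e2 : lob (π * τ) = -lob (π * (1 - τ)) := by
      rw [← lob_pi_sub']
      congr 1
      ring
    have e3 := lob_dup (s := 2 * π * (1 - τ)) (by
      have : 0 ≤ 1 - τ := by linarith
      positivity) (by nlinarith)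
    rw [show (π - 2 * π * (1 - τ)) / 2 = π * (τ - 1 / 2) by ring,
      show 2 * π * (1 - τ) / 2 = π * (1 - τ) by ring] at e3
    have h3 := Eg_le (γ := 1 - τ) (by linarith) (by linarith)
    unfold Eg at h3
    rw [show 1 - (1 - τ) = τ by ring] at h3
    rw [e1, e2]
    linarith

end Pool.Agent.H63.UB
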