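import Pool.Agent.H63.UB.Vert
import Pool.Agent.H63.CLK.C_Jones
import Pool.Agent.H93.TR.Map

/-!
# The upper bound

`exists_ends`: the two twist regions at the edge where the diagram is cut open; `twist_le`: the product
of the bounds of the twist regions, and the number of the states.
-/

set_option autoImplicit false

namespace Pool.Agent.H63.UB

open Pool.Agent.H63.VC hiding ext qbin
open Pool.Agent.H63.VC3 Pool.Agent.H63.VC4 Pool.Agent.H63.VC7 Pool.Agent.H63.CLK Complex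
open scoped BigOperators

variable {c : ℕ} {F : Finset ℕ} {cor : Fin c → Fin 4 → ℕ}

private theorem Main_k1 : ∀ k k' : Fin 4, k' = k ∨ k' = k - 1 ∨ k' = k + 1 ∨ k' = k + 2 := by decide

private theorem Main_k2 : ∀ k : Fin 4, k - 1 - 1 + 2 = k := by decide

private theorem Main_k3 : ∀ k : Fin 4, k - 1 + 2 = k + 1 := by decide

private theorem Main_k4 : ∀ k : Fin 4, k + 2 - 1 = k + 1 := by decide

theorem exists_ends {w : List TPiece} (hT : IsTemplate w c F cor) (hc : 0 < c)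
    (hR : ∀ v k, cor v k ≠ cor v (k + 2)) :
    ∃ (v₀ v₁ : Fin c) (k₀ k₁ : Fin 4), v₀ ≠ v₁ ∧ cor v₀ k₀ ∉ F ∧ cor v₀ (k₀ + 1) ∉ F ∧
      cor v₁ k₁ ∉ F ∧ cor v₁ (k₁ + 1) ∉ F := by
  obtain ⟨G, hcor, hF, h0, h1, hO⟩ := Pool.Agent.H93.TR.exists_PG hT hc hR
  subst hcor
  obtain ⟨v₀, k₀, e0, e1⟩ := hO
  have f1 := G.face (v₀, k₀)
  have f2 := G.face (G.mt (v₀, k₀))
  rw [G.inv] at f2
  simp only at f1 f2
  set p := G.mt (v₀, k₀) with hp
  rw [e1] at f1
  rw [e0] at f2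
  have nF : ∀ x : ℕ, x = 0 ∨ x = 1 → x ∉ F := by
    intro x hx
    rw [hF, Finset.mem_sdiff]
    intro h
    apply h.2
    rcases hx with rfl | rfl <;> simp
  refine ⟨v₀, p.1, k₀ - 1, p.2 - 1, ?_, nF _ (Or.inr e1), nF _ (Or.inl (by
    rw [sub_add_cancel]; exact e0)), nF _ (Or.inl f2.symm), nF _ (Or.inr (by
    rw [sub_add_cancel]; exact f1))⟩
  intro hv
  rw [← hv] at f1 f2
  rcases Main_k1 k₀ p.2 with h | h | h | h
  · rw [h, e0] at f1
    exact zero_ne_one f1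
  · rw [h] at f2
    apply hR v₀ (k₀ - 1 - 1)
    rw [← f2, Main_k2]
    exact e0.symm
  · rw [h] at f1
    apply hR v₀ (k₀ - 1)
    rw [e1, Main_k3]
    exact f1.symm
  · rw [h] at f2
    have h3 := G.colne v₀ k₀
    rw [Main_k4] at f2
    rw [← f2, e0] at h3
    exact h3 rfl

/-- The uniform upper bound in terms of the number of twist regions. -/
theorem twist_le : ∃ C : ℝ, 0 < C ∧ ∃ D : ℕ, ∀ (w : List TPiece) (c : ℕ) (F : Finset ℕ)
    (cor : Fin c → Fin 4 → ℕ), IsTemplate w c F cor → 0 < c → (∀ v k, cor v k ≠ cor v (k + 2)) →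
    ∀ (a : ℕ → ℤ) (e : ℤ) (N : ℕ), 1 ≤ N →
    ‖longJones (fill a 0 w) e N (qz N)‖ ≤ (C * ((N + 1 : ℕ) : ℝ) ^ D) ^ c *
      (∏ v : Fin c, (1 + |(a v : ℝ)|)) * Real.exp (((N + 1 : ℕ) : ℝ) *
        ((30 * lob (Real.pi / 3) * ((c : ℝ) - 2) + 16 * lob (Real.pi / 4)) / (2 * Real.pi))) := by
  classical
  obtain ⟨C1, hC1, D1, h1⟩ := vert_le
  obtain ⟨C2, hC2, D2, h2⟩ := end_le
  have hpi := Real.pi_pos
  refine ⟨C1 + C2, by positivity, D1 + D2 + 5, fun w c F cor hT hc hR a e N hN => ?_⟩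
  obtain ⟨v₀, v₁, k₀, k₁, hne, o1, o2, o3, o4⟩ := exists_ends hT hc hR
  have hM1 : (1 : ℝ) ≤ ((N + 1 : ℕ) : ℝ) := by exact_mod_cast (by omega : 1 ≤ N + 1)
  have hM0 : (0 : ℝ) < ((N + 1 : ℕ) : ℝ) := by positivity
  set M : ℝ := ((N + 1 : ℕ) : ℝ) with hM
  set E1 : ℝ := 30 * lob (Real.pi / 3) / (2 * Real.pi) with hE1
  set E2 : ℝ := 8 * lob (Real.pi / 4) / (2 * Real.pi) with hE2
  set C : ℝ := C1 + C2 with hC
  have hC0 : 0 < C := by positivity
  rw [jones_stSum hT a e N, norm_mul]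
  have hq : ‖(qz N) ^ ((N : ℤ) * (N + 2) * e)‖ = 1 := by
    rw [norm_zpow]
    have : ‖qz N‖ = 1 := by
      rw [qz, Complex.norm_exp]
      have : (Real.pi * I / ((N + 1 : ℕ) : ℂ)).re = 0 := by
        rw [show (Real.pi * I / ((N + 1 : ℕ) : ℂ) : ℂ) = ((Real.pi / ((N + 1 : ℕ) : ℝ) : ℝ) : ℂ) * I by
          push_cast; ring, Complex.re_ofReal_mul, Complex.I_re, mul_zero]
      rw [this, Real.exp_zero]
    rw [this, one_zpow]
  rw [hq, one_mul]
  -- the bound of one twist region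
  set B : Fin c → ℝ := fun v => C * (1 + |(a v : ℝ)|) * M ^ (D1 + D2) *
    Real.exp (M * (if v = v₀ ∨ v = v₁ then E2 else E1)) with hB
  have hB0 : ∀ v, 0 ≤ B v := by
    intro v
    have := abs_nonneg (a v : ℝ)
    positivity
  have hterm : ∀ (t : Fin c → ℕ) (s : Fin c → Fin 4 → ℕ), (∀ v, t v ≤ N) →
      (∀ v k, s v k ≤ csz N (t v) k) → IsState F cor N s →
      ‖(∏ v : Fin c, eta (a v) N (t v)) * corP N t s‖ ≤ ∏ v, B v := by
    intro t s ht hs hst
    rw [norm_mul, _root_.norm_prod, corP, _root_.norm_prod, ← Finset.prod_mul_distrib]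
    refine Finset.prod_le_prod (fun v _ => by positivity) fun v _ => ?_
    rw [_root_.norm_prod]
    have ha := abs_nonneg (a v : ℝ)
    by_cases hv : v = v₀ ∨ v = v₁
    · simp only [hB, if_pos hv]
      have hone : ∏ k, ‖qbin (qz N) (csz N (t v) k) (s v k)‖ = 1 := by
        refine Finset.prod_eq_one fun j _ => ?_
        rcases hv with rfl | rfl
        · rw [end_corner (ht _) (hs _) (hst.1 _) k₀ (hst.2.2 _ _ o1) (hst.2.2 _ _ o2) j, norm_one]
        · rw [end_corner (ht _) (hs _) (hst.1 _) k₁ (hst.2.2 _ _ o3) (hst.2.2 _ _ o4) j, norm_one]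
      rw [hone, mul_one]
      refine (h2 (a v) N (t v) hN (ht v)).trans ?_
      have p1 : M ^ D2 ≤ M ^ (D1 + D2) := pow_le_pow_right₀ hM1 (by omega)
      have p2 : C2 ≤ C := by linarith
      gcongr
    · simp only [hB, if_neg hv]
      refine (h1 (a v) N (t v) (s v) hN (ht v) (hs v)).trans ?_
      have p1 : M ^ D1 ≤ M ^ (D1 + D2) := pow_le_pow_right₀ hM1 (by omega)
      have p2 : C1 ≤ C := by linarith
      gcongr
  refine (F_FarA_norm N _ (∏ v, B v) (Finset.prod_nonneg fun v _ => hB0 v) hterm).trans ?_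
  rw [← hM]
  have hprod : ∏ v, B v = C ^ c * (∏ v : Fin c, (1 + |(a v : ℝ)|)) * (M ^ (D1 + D2)) ^ c *
      Real.exp (M * (E1 * ((c : ℝ) - 2) + 2 * E2)) := by
    simp only [hB, Finset.prod_mul_distrib, Finset.prod_const, Finset.card_univ, Fintype.card_fin,
      ← Real.exp_sum, ← Finset.mul_sum]
    congr 2
    have hs : ∑ v : Fin c, (if v = v₀ ∨ v = v₁ then E2 else E1) = E1 * ((c : ℝ) - 2) + 2 * E2 := by
      have e1 : ∀ v : Fin c, (if v = v₀ ∨ v = v₁ then E2 else E1) =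
          E1 + (if v = v₀ then E2 - E1 else 0) + (if v = v₁ then E2 - E1 else 0) := by
        intro v
        by_cases q0 : v = v₀
        · have q1 : v ≠ v₁ := fun h => hne (q0.symm.trans h)
          simp [q0, hne]
        · by_cases q1 : v = v₁
          · have : v₁ ≠ v₀ := hne.symm
            simp [q1, this]
          · simp [q0, q1]
      simp only [e1, Finset.sum_add_distrib, Finset.sum_const, Finset.card_univ, Fintype.card_fin,
        nsmul_eq_mul, Finset.sum_ite_eq', Finset.mem_univ, if_true]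
      ring
    rw [hs]
  rw [hprod]
  have hexp : M * (E1 * ((c : ℝ) - 2) + 2 * E2) = M * ((30 * lob (Real.pi / 3) * ((c : ℝ) - 2) +
      16 * lob (Real.pi / 4)) / (2 * Real.pi)) := by
    rw [hE1, hE2]
    field_simp
    ring
  rw [hexp]
  refine le_of_eq ?_
  rw [mul_pow, show (M ^ (D1 + D2 + 5)) ^ c = (M ^ (D1 + D2)) ^ c * M ^ (5 * c) by
    rw [← pow_mul, ← pow_mul, ← pow_add]; congr 1; ring]
  ring

end Pool.Agent.H63.UB
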