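import Pool.Agent.H63.UB.Loc
import Pool.Agent.H63.CLK.C_Naive
import Pool.Agent.H63.CLK.F_FarA

/-!
# The bound of one term of the state sum

`B_Bound_DG` gives the bound of `eta` with a factor linear in the number of half twists;
`corner_growth`, `pair_le` and `Fr_mod` for the corners; `vtx_le`, `sl_le`.
-/

set_option autoImplicit false

namespace Pool.Agent.H63.UB

open Pool.Agent.H63.VC hiding ext qbin
open Pool.Agent.H63.VC3 Pool.Agent.H63.VC4 Pool.Agent.H63.VC7 Pool.Agent.H63.CLK Complex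
open scoped BigOperators

/-- The factor of a twist region, with an explicit dependence on the number of half twists. -/
theorem eta_le : ∃ C : ℝ, 0 < C ∧ ∃ D : ℕ, ∀ (a : ℤ) (N t : ℕ), 1 ≤ N → t ≤ N →
    ‖eta a N t‖ ≤ C * (1 + |(a : ℝ)|) * ((N + 1 : ℕ) : ℝ) ^ D *
      Real.exp (((N + 1 : ℕ) : ℝ) * sl ((t : ℝ) / ((N + 1 : ℕ) : ℝ))) := by
  obtain ⟨C, hC, D, h⟩ := B_Bound_DG
  have hpi := Real.pi_pos
  refine ⟨(4 * Real.pi + 2) * C, by positivity, D, fun a N t hN ht => ?_⟩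
  rw [B_Bound_eta]
  have h1 := h ((a : ℝ) / 2) (N + 1) t (by omega) (by omega)
  have hM1 : (1 : ℝ) ≤ ((N + 1 : ℕ) : ℝ) := by exact_mod_cast (by omega : 1 ≤ N + 1)
  have h2 : (1 : ℝ) ≤ 4 * Real.pi * ((N + 1 : ℕ) : ℝ) := by
    have := Real.pi_gt_three
    nlinarith
  have h3 : 4 * Real.pi * |(a : ℝ) / 2| + 4 * Real.pi + 2 ≤ (4 * Real.pi + 2) * (1 + |(a : ℝ)|) := by
    rw [abs_div, abs_two]
    have := abs_nonneg (a : ℝ)
    nlinarith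
  calc S (N + 1) t ^ 2 * ‖DG1 ((a : ℝ) / 2) (N + 1) t‖ / (4 * Real.pi * ((N + 1 : ℕ) : ℝ))
      ≤ S (N + 1) t ^ 2 * ‖DG1 ((a : ℝ) / 2) (N + 1) t‖ :=
        div_le_self (by positivity) h2
    _ ≤ _ := h1
    _ ≤ ((4 * Real.pi + 2) * (1 + |(a : ℝ)|)) * C * ((N + 1 : ℕ) : ℝ) ^ D *
        Real.exp (((N + 1 : ℕ) : ℝ) * sl ((t : ℝ) / ((N + 1 : ℕ) : ℝ))) := by
        gcongr
    _ = _ := by ring

theorem exp_log_le (M : ℕ) (hM : 1 ≤ M) (K : ℝ) :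
    Real.exp (K * (1 + Real.log M)) ≤ Real.exp K * (M : ℝ) ^ ⌈K⌉₊ := by
  have h0 : (0 : ℝ) < M := by exact_mod_cast hM
  have h1 : 0 ≤ Real.log M := Real.log_nonneg (by exact_mod_cast hM)
  rw [mul_add, mul_one, Real.exp_add]
  refine mul_le_mul_of_nonneg_left ?_ (Real.exp_pos _).le
  have h2 : (M : ℝ) ^ ⌈K⌉₊ = Real.exp ((⌈K⌉₊ : ℝ) * Real.log M) := by
    rw [Real.exp_nat_mul, Real.exp_log h0]
  rw [h2]
  exact Real.exp_le_exp.2 (mul_le_mul_of_nonneg_right (Nat.le_ceil K) h1)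

/-- The growth rate of a corner is largest in the middle. -/
theorem Fr_mid {s σ : ℝ} (h0 : 0 ≤ σ) (h1 : σ ≤ s) (h2 : s ≤ 1) :
    Fr s - Fr σ - Fr (s - σ) ≤ Fr s - 2 * Fr (s / 2) := by
  have h := pair_le h0 h1 h2
  have hpi := Real.pi_pos
  unfold Fr
  have e : -lob (Real.pi * s) / Real.pi - -lob (Real.pi * σ) / Real.pi -
      -lob (Real.pi * (s - σ)) / Real.pi =
      (-lob (Real.pi * s) + (lob (Real.pi * σ) + lob (Real.pi * (s - σ)))) / Real.pi := by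
    field_simp
    ring
  have e2 : -lob (Real.pi * s) / Real.pi - 2 * (-lob (Real.pi * (s / 2)) / Real.pi) =
      (-lob (Real.pi * s) + 2 * lob (Real.pi * (s / 2))) / Real.pi := by
    field_simp
    ring
  rw [e, e2]
  gcongr

/-- The bound of one corner. -/
theorem corner_le : ∃ C : ℝ, 0 < C ∧ ∃ D : ℕ, ∀ (N n s : ℕ), n ≤ N → s ≤ n →
    ‖qbin (qz N) n s‖ ≤ C * ((N + 1 : ℕ) : ℝ) ^ D *
      Real.exp (((N + 1 : ℕ) : ℝ) * (Fr ((n : ℝ) / ((N + 1 : ℕ) : ℝ)) -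
        2 * Fr (((n : ℝ) / ((N + 1 : ℕ) : ℝ)) / 2))) := by
  obtain ⟨C, hC, D, h⟩ := corner_growth
  refine ⟨C, hC, D, fun N n s hn hs => ?_⟩
  have hM0 : (0 : ℝ) < ((N + 1 : ℕ) : ℝ) := by positivity
  rw [qbin_qz N n s hn hs, Complex.norm_real, Real.norm_of_nonneg (div_nonneg (S_pos (by omega)).le
    (mul_nonneg (S_pos (by omega)).le (S_pos (by omega)).le))]
  refine (h (N + 1) n s (by omega) hs).trans ?_
  refine mul_le_mul_of_nonneg_left (Real.exp_le_exp.2 ?_) (by positivity)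
  refine mul_le_mul_of_nonneg_left ?_ hM0.le
  have e : (((n - s : ℕ) : ℝ)) / ((N + 1 : ℕ) : ℝ) =
      (n : ℝ) / ((N + 1 : ℕ) : ℝ) - (s : ℝ) / ((N + 1 : ℕ) : ℝ) := by
    rw [Nat.cast_sub hs]
    ring
  rw [e]
  refine Fr_mid (by positivity) (by
    have : (s : ℝ) ≤ n := by exact_mod_cast hs
    gcongr) ?_
  rw [div_le_one hM0]
  exact_mod_cast (by omega : n ≤ N + 1)

/-- The bound of the four corners. -/
theorem corners_le : ∃ C : ℝ, 0 < C ∧ ∃ D : ℕ, ∀ (N t : ℕ) (s : Fin 4 → ℕ), 1 ≤ N → t ≤ N →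
    (∀ k, s k ≤ csz N t k) →
    ∏ k, ‖qbin (qz N) (csz N t k) (s k)‖ ≤ C * ((N + 1 : ℕ) : ℝ) ^ D *
      Real.exp (((N + 1 : ℕ) : ℝ) * (-4 * Fr ((1 - (t : ℝ) / ((N + 1 : ℕ) : ℝ)) / 2) -
        4 * Fr (((t : ℝ) / ((N + 1 : ℕ) : ℝ)) / 2))) := by
  obtain ⟨C, hC, D, h⟩ := corner_le
  obtain ⟨C1, hC1, h1⟩ := Fr_mod
  refine ⟨C ^ 4 * Real.exp (6 * C1), by positivity, 4 * D + ⌈6 * C1⌉₊, fun N t s hN ht hs => ?_⟩
  set M : ℕ := N + 1 with hM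
  have hM0 : (0 : ℝ) < (M : ℝ) := by positivity
  have hM1 : 1 ≤ M := by omega
  set τ : ℝ := (t : ℝ) / (M : ℝ) with hτ
  set γ : ℝ := ((N - t : ℕ) : ℝ) / (M : ℝ) with hγ
  have hγτ : 1 - τ - γ = 1 / (M : ℝ) := by
    rw [hγ, hτ, Nat.cast_sub ht, hM]
    have : ((N + 1 : ℕ) : ℝ) ≠ 0 := by positivity
    push_cast at this ⊢
    field_simp
    ring
  have b0 := h N (csz N t 0) (s 0) (by simp [csz]) (hs 0)
  have b1 := h N (csz N t 1) (s 1) (by simpa [csz] using ht) (hs 1)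
  have b2 := h N (csz N t 2) (s 2) (by simp [csz]) (hs 2)
  have b3 := h N (csz N t 3) (s 3) (by simpa [csz] using ht) (hs 3)
  have c0 : ((csz N t 0 : ℕ) : ℝ) / (M : ℝ) = γ := by simp [csz, hγ]
  have c1 : ((csz N t 1 : ℕ) : ℝ) / (M : ℝ) = τ := by simp [csz, hτ]
  have c2 : ((csz N t 2 : ℕ) : ℝ) / (M : ℝ) = γ := by simp [csz, hγ]
  have c3 : ((csz N t 3 : ℕ) : ℝ) / (M : ℝ) = τ := by simp [csz, hτ]
  rw [c0] at b0
  rw [c1] at b1
  rw [c2] at b2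
  rw [c3] at b3
  rw [Fin.prod_univ_four]
  have hfr : Fr (1 - τ) = -Fr τ := by
    unfold Fr
    rw [show Real.pi * (1 - τ) = Real.pi - Real.pi * τ by ring, lob_pi_sub']
    ring
  have m1 := h1 M (1 - τ) γ hM1 (by
    rw [hγτ, abs_of_pos (by positivity)]
    gcongr
    norm_num)
  have m2 := h1 M ((1 - τ) / 2) (γ / 2) hM1 (by
    rw [← sub_div, hγτ, abs_of_pos (by positivity), div_div]
    have : (1 : ℝ) / (M * 2) ≤ 2 / M := by
      rw [div_le_div_iff₀ (by positivity) hM0]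
      nlinarith
    exact this)
  have hL : 0 ≤ Real.log M := Real.log_nonneg (by exact_mod_cast hM1)
  have key : (M : ℝ) * (2 * (Fr γ - 2 * Fr (γ / 2)) + 2 * (Fr τ - 2 * Fr (τ / 2))) ≤
      6 * C1 * (1 + Real.log M) + M * (-4 * Fr ((1 - τ) / 2) - 4 * Fr (τ / 2)) := by
    have n1 := (abs_le.1 (le_of_eq (rfl : |Fr (1 - τ) - Fr γ| = _))).1
    have n2 := (abs_le.1 (le_of_eq (rfl : |Fr ((1 - τ) / 2) - Fr (γ / 2)| = _))).2
    have n1' := mul_le_mul_of_nonneg_left n1 hM0.le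
    have n2' := mul_le_mul_of_nonneg_left n2 hM0.le
    rw [hfr] at *
    nlinarith
  calc ‖qbin (qz N) (csz N t 0) (s 0)‖ * ‖qbin (qz N) (csz N t 1) (s 1)‖ *
        ‖qbin (qz N) (csz N t 2) (s 2)‖ * ‖qbin (qz N) (csz N t 3) (s 3)‖
      ≤ (C * (M : ℝ) ^ D * Real.exp (M * (Fr γ - 2 * Fr (γ / 2)))) *
        (C * (M : ℝ) ^ D * Real.exp (M * (Fr τ - 2 * Fr (τ / 2)))) *
        (C * (M : ℝ) ^ D * Real.exp (M * (Fr γ - 2 * Fr (γ / 2)))) *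
        (C * (M : ℝ) ^ D * Real.exp (M * (Fr τ - 2 * Fr (τ / 2)))) := by gcongr
    _ = C ^ 4 * (M : ℝ) ^ (4 * D) *
        Real.exp (M * (2 * (Fr γ - 2 * Fr (γ / 2)) + 2 * (Fr τ - 2 * Fr (τ / 2)))) := by
        rw [show (M : ℝ) * (2 * (Fr γ - 2 * Fr (γ / 2)) + 2 * (Fr τ - 2 * Fr (τ / 2))) =
          M * (Fr γ - 2 * Fr (γ / 2)) + M * (Fr τ - 2 * Fr (τ / 2)) +
          M * (Fr γ - 2 * Fr (γ / 2)) + M * (Fr τ - 2 * Fr (τ / 2)) by ring, Real.exp_add,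
          Real.exp_add, Real.exp_add]
        ring
    _ ≤ C ^ 4 * (M : ℝ) ^ (4 * D) * (Real.exp (6 * C1 * (1 + Real.log M)) *
        Real.exp (M * (-4 * Fr ((1 - τ) / 2) - 4 * Fr (τ / 2)))) := by
        rw [← Real.exp_add]
        gcongr
    _ ≤ C ^ 4 * (M : ℝ) ^ (4 * D) * ((Real.exp (6 * C1) * (M : ℝ) ^ ⌈6 * C1⌉₊) *
        Real.exp (M * (-4 * Fr ((1 - τ) / 2) - 4 * Fr (τ / 2)))) := by
        gcongr
        exact exp_log_le M hM1 _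
    _ = _ := by
        rw [pow_add]
        ring

/-- The bound of all factors of one twist region. -/
theorem vert_le : ∃ C : ℝ, 0 < C ∧ ∃ D : ℕ, ∀ (a : ℤ) (N t : ℕ) (s : Fin 4 → ℕ), 1 ≤ N → t ≤ N →
    (∀ k, s k ≤ csz N t k) →
    ‖eta a N t‖ * ∏ k, ‖qbin (qz N) (csz N t k) (s k)‖ ≤
      C * (1 + |(a : ℝ)|) * ((N + 1 : ℕ) : ℝ) ^ D *
        Real.exp (((N + 1 : ℕ) : ℝ) * (30 * lob (Real.pi / 3) / (2 * Real.pi))) := by
  obtain ⟨C1, hC1, D1, h1⟩ := eta_le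
  obtain ⟨C2, hC2, D2, h2⟩ := corners_le
  have hpi := Real.pi_pos
  refine ⟨C1 * C2, by positivity, D1 + D2, fun a N t s hN ht hs => ?_⟩
  have hM0 : (0 : ℝ) < ((N + 1 : ℕ) : ℝ) := by positivity
  have b1 := h1 a N t hN ht
  have b2 := h2 N t s hN ht hs
  have hτ0 : 0 ≤ (t : ℝ) / ((N + 1 : ℕ) : ℝ) := by positivity
  have hτ1 : (t : ℝ) / ((N + 1 : ℕ) : ℝ) ≤ 1 := by
    rw [div_le_one hM0]
    exact_mod_cast (by omega : t ≤ N + 1)
  have b3 := vtx_le hτ0 hτ1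
  set τ : ℝ := (t : ℝ) / ((N + 1 : ℕ) : ℝ)
  have ha := abs_nonneg (a : ℝ)
  calc ‖eta a N t‖ * ∏ k, ‖qbin (qz N) (csz N t k) (s k)‖
      ≤ (C1 * (1 + |(a : ℝ)|) * ((N + 1 : ℕ) : ℝ) ^ D1 * Real.exp (((N + 1 : ℕ) : ℝ) * sl τ)) *
        (C2 * ((N + 1 : ℕ) : ℝ) ^ D2 *
          Real.exp (((N + 1 : ℕ) : ℝ) * (-4 * Fr ((1 - τ) / 2) - 4 * Fr (τ / 2)))) := by
        refine mul_le_mul b1 b2 (Finset.prod_nonneg fun k _ => norm_nonneg _) (by positivity)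
    _ = C1 * C2 * (1 + |(a : ℝ)|) * ((N + 1 : ℕ) : ℝ) ^ (D1 + D2) *
        Real.exp (((N + 1 : ℕ) : ℝ) * (sl τ - 4 * Fr ((1 - τ) / 2) - 4 * Fr (τ / 2))) := by
        rw [show ((N + 1 : ℕ) : ℝ) * (sl τ - 4 * Fr ((1 - τ) / 2) - 4 * Fr (τ / 2)) =
          ((N + 1 : ℕ) : ℝ) * sl τ +
            ((N + 1 : ℕ) : ℝ) * (-4 * Fr ((1 - τ) / 2) - 4 * Fr (τ / 2)) by ring,
          Real.exp_add, pow_add]
        ring
    _ ≤ _ := by
        refine mul_le_mul_of_nonneg_left (Real.exp_le_exp.2 ?_) (by positivity)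
        refine mul_le_mul_of_nonneg_left ?_ hM0.le
        rw [le_div_iff₀ (by positivity)]
        linarith

/-- The bound of the factor of an end. -/
theorem end_le : ∃ C : ℝ, 0 < C ∧ ∃ D : ℕ, ∀ (a : ℤ) (N t : ℕ), 1 ≤ N → t ≤ N →
    ‖eta a N t‖ ≤ C * (1 + |(a : ℝ)|) * ((N + 1 : ℕ) : ℝ) ^ D *
        Real.exp (((N + 1 : ℕ) : ℝ) * (8 * lob (Real.pi / 4) / (2 * Real.pi))) := by
  obtain ⟨C1, hC1, D1, h1⟩ := eta_le
  have hpi := Real.pi_pos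
  refine ⟨C1, hC1, D1, fun a N t hN ht => ?_⟩
  have hM0 : (0 : ℝ) < ((N + 1 : ℕ) : ℝ) := by positivity
  refine (h1 a N t hN ht).trans ?_
  have hτ0 : 0 ≤ (t : ℝ) / ((N + 1 : ℕ) : ℝ) := by positivity
  have hτ1 : (t : ℝ) / ((N + 1 : ℕ) : ℝ) ≤ 1 := by
    rw [div_le_one hM0]
    exact_mod_cast (by omega : t ≤ N + 1)
  have b3 := sl_le hτ0 hτ1
  have ha := abs_nonneg (a : ℝ)
  refine mul_le_mul_of_nonneg_left (Real.exp_le_exp.2 ?_) (by positivity)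
  refine mul_le_mul_of_nonneg_left ?_ hM0.le
  rw [le_div_iff₀ (by positivity)]
  linarith

/-- At an end the corner factors are `1`. -/
theorem end_corner {N t : ℕ} (ht : t ≤ N) {s : Fin 4 → ℕ} (hs : ∀ k, s k ≤ csz N t k)
    (hsum : ∑ k, s k = N) (k : Fin 4) (h1 : s k = 0) (h2 : s (k + 1) = 0) (j : Fin 4) :
    qbin (qz N) (csz N t j) (s j) = 1 := by
  have q0 : ∀ n : ℕ, n ≤ N → qbin (qz N) n 0 = 1 := by
    intro n hn
    rw [qbin_qz N n 0 hn (Nat.zero_le n), Nat.sub_zero]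
    have h3 : S (N + 1) n ≠ 0 := (S_pos (by omega)).ne'
    have h4 : S (N + 1) 0 = 1 := by simp [S]
    rw [h4, one_mul, div_self h3, Complex.ofReal_one]
  have qn : ∀ n : ℕ, n ≤ N → qbin (qz N) n n = 1 := by
    intro n hn
    rw [qbin_qz N n n hn le_rfl, Nat.sub_self]
    have h3 : S (N + 1) n ≠ 0 := (S_pos (by omega)).ne'
    have h4 : S (N + 1) 0 = 1 := by simp [S]
    rw [h4, mul_one, div_self h3, Complex.ofReal_one]
  have z0 : csz N t 0 = N - t := rfl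
  have z1 : csz N t 1 = t := rfl
  have z2 : csz N t 2 = N - t := rfl
  have z3 : csz N t 3 = t := rfl
  have s0 := hs 0
  have s1 := hs 1
  have s2 := hs 2
  have s3 := hs 3
  rw [z0] at s0
  rw [z1] at s1
  rw [z2] at s2
  rw [z3] at s3
  rw [Fin.sum_univ_four] at hsum
  have hle : csz N t j ≤ N := by fin_cases j <;> simp [csz, ht]
  have hj : s j = 0 ∨ s j = csz N t j := by
    fin_cases k <;> fin_cases j <;> simp [csz] at h1 h2 ⊢ <;> omega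
  rcases hj with h | h
  · rw [h]
    exact q0 _ hle
  · rw [h]
    exact qn _ hle

end Pool.Agent.H63.UB
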